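import Pool.Agent.H77.BC.Targets

/-!
# Row FSP of board bcp_modules: roots in definable fields
-/

set_option autoImplicit false

open Set Pool.Agent.H77.BC

namespace Pool.Agent.H94.BCP

theorem pf_FSP {M : Type} (U : RU M) (hA : RKA U) (hB : RKB U) (hF : FCN U) (hE : FDG U) :
    FSP U := by
  classical
  intro K _ _ _ _
  have hfib : ∀ (X : Set K) (f : K → K), U.D X → DFn U f → X.Nonempty →
      (∀ b, {a | f a = b}.Finite) → U.R X = U.R (f '' X) := by
    intro X f hX hf hne hfin
    have h := hB.fib_eq (n := 0) hX hf hne ?_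
    · rw [h, add_zero]
    · rintro b ⟨a, ha, rfl⟩
      have h1 : U.D {c | c ∈ X ∧ f c = f a} := D_and hX (D_eqf hf (DFn_const _))
      have h2 : {c | c ∈ X ∧ f c = f a}.Nonempty := ⟨a, ha, rfl⟩
      exact (hA.fin h1 h2).2 ((hfin (f a)).subset fun c hc => hc.2)
  refine ⟨?_, ?_⟩
  · intro q hq x
    rcases eq_or_ne x 0 with hx | hx
    · exact ⟨0, by rw [hx, zero_pow hq.ne']⟩
    · have hN : U.D {y : K | ¬ y = 0} := D_not (D_eqf DFn_id (DFn_const 0))
      have hNn : {y : K | ¬ y = 0}.Nonempty := ⟨1, one_ne_zero⟩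
      have h0 : U.R ({0} : Set K) = 0 :=
        (hA.fin (D_singleton (U := U) (0 : K)) (singleton_nonempty _)).2 (finite_singleton _)
      have hu : (univ : Set K) = {0} ∪ {y : K | ¬ y = 0} := by
        ext y
        simp [em]
      have hr : U.R (univ : Set K) ≤ U.R {y : K | ¬ y = 0} := by
        rw [hu, hA.union (D_singleton (U := U) (0 : K)) hN (singleton_nonempty _) hNn, h0]
        simp
      have hf : DFn U (fun y : K => y ^ q) := DFn_pow DFn_id q
      have h1 := hfib {y : K | ¬ y = 0} (fun y : K => y ^ q) hN hf hNn (fun b => by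
        refine ((Polynomial.nthRoots q b).toFinset.finite_toSet).subset ?_
        intro a ha
        have ha' : a ^ q = b := ha
        simp only [Finset.mem_coe, Multiset.mem_toFinset]
        exact (Polynomial.mem_nthRoots hq).2 ha')
      have hX : U.D ((fun y : K => y ^ q) '' {y : K | ¬ y = 0}) := DFn_image hf hN
      have hg : DFn U (fun y : K => x * y) := DFn_mul (DFn_const x) DFn_id
      have hY := DFn_image hg hX
      have h2 := hB.inj hX hg (hNn.image _) (fun a _ b _ hab => mul_left_cancel₀ hx hab)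
      obtain ⟨z, ⟨a, -, h3⟩, ⟨_, ⟨d, hd, rfl⟩, h4⟩⟩ := hE _ _ hX hY (hNn.image _)
        ((hNn.image _).image _) (h1 ▸ hr) (by rw [h2, ← h1]; exact hr)
      refine ⟨a / d, ?_⟩
      have h3' : a ^ q = z := h3
      have h4' : x * d ^ q = z := h4
      have hdq : d ^ q ≠ 0 := pow_ne_zero _ hd
      rw [div_pow, h3', ← h4', mul_div_cancel_right₀ _ hdq]
  · intro p hp hK x
    have _ := Fact.mk hp
    let φ : K →+ K := AddMonoidHom.mk' (fun y : K => y ^ p - y) (by
      intro a b
      change (a + b) ^ p - (a + b) = (a ^ p - a) + (b ^ p - b)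
      rw [add_pow_char a b p]
      ring)
    have hf : DFn U (fun y : K => y ^ p - y) := DFn_sub (DFn_pow DFn_id p) DFn_id
    have h1 := hfib univ (fun y : K => y ^ p - y) Ful.full hf univ_nonempty (fun b => by
      have hP : (Polynomial.X ^ p - Polynomial.X - Polynomial.C b : Polynomial K) ≠ 0 := by
        intro h
        have h2 := congrArg (fun Q : Polynomial K => Q.coeff p) h
        simp [Polynomial.coeff_X, Polynomial.coeff_C, hp.ne_zero, hp.ne_one.symm] at h2
      refine (Polynomial.finite_setOfPred_isRoot hP).subset ?_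
      intro a ha
      have ha' : a ^ p - a = b := ha
      change Polynomial.eval a _ = 0
      simp [ha'])
    have hr : ((φ.range : AddSubgroup K) : Set K) = (fun y : K => y ^ p - y) '' univ := by
      ext y
      constructor
      · rintro ⟨a, ha⟩
        exact ⟨a, mem_univ _, ha⟩
      · rintro ⟨a, -, ha⟩
        exact ⟨a, ha⟩
    have h2 : U.D ((φ.range : AddSubgroup K) : Set K) := by
      rw [hr]
      exact DFn_image hf Ful.full
    have h3 := hF φ.range h2 (by rw [hr, ← h1])
    have h4 : x ∈ φ.range := by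
      rw [h3]
      exact AddSubgroup.mem_top x
    obtain ⟨y, hy⟩ := h4
    exact ⟨y, hy⟩

end Pool.Agent.H94.BCP
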